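import Pool.Agent.Helper41.Res.EL

/-!
# At most 36 edges meet both blocks of a pair of blocks

Let `H` be a 2-resilient 3-graph with matching number two, `{e,f}` a matching of `H`, such that the
edges of `H` avoiding `f` (respectively `e`) form a 2-resilient 3-graph with matching number one.
Then at most 36 edges of `H` meet both `e` and `f`.
-/

namespace Res41

open Finset Res12

set_option linter.unusedSectionVars false

variable {V : Type} [Fintype V] [DecidableEq V]

/-- Three pairwise disjoint edges are impossible when the matching number is two. -/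
theorem no3 {H : Finset (Finset V)} (h : Hyp H 2) {a b c : Finset V} (ha : a ∈ H) (hb : b ∈ H)
    (hc : c ∈ H) (hab : Disjoint a b) (hac : Disjoint a c) (hbc : Disjoint b c) : False := by
  have hne : ∀ {u v : Finset V}, u ∈ H → Disjoint u v → u ≠ v := by
    intro u v hu hd he
    rw [he, disjoint_self] at hd
    have := h.three u hu
    rw [he, hd] at this
    simp at this
  have h1 := h.le {a, b, c} (by
    intro e he
    simp only [mem_insert, mem_singleton] at he
    rcases he with rfl | rfl | rfl <;> assumption) (by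
    intro e he f hf hef
    simp only [mem_insert, mem_singleton] at he hf
    rcases he with rfl | rfl | rfl <;> rcases hf with rfl | rfl | rfl
    · exact absurd rfl hef
    · exact hab
    · exact hac
    · exact hab.symm
    · exact absurd rfl hef
    · exact hbc
    · exact hac.symm
    · exact hbc.symm
    · exact absurd rfl hef)
  rw [Finset.card_eq_three.2 ⟨a, b, c, hne ha hab, hne ha hac, hne hb hbc, rfl⟩] at h1
  omega

/-- Three finite sets of size at most four without distinct representatives. -/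
theorem sdr {A B C : Finset V} (hno : ∀ a ∈ A, ∀ b ∈ B, ∀ c ∈ C, a ≠ b → a ≠ c → b ≠ c → False)
    (hA : A.card ≤ 4) (hB : B.card ≤ 4) (hC : C.card ≤ 4) :
    A.card + B.card + C.card ≤ 6 ∨ (A = ∅ ∧ 3 ≤ B.card ∧ 3 ≤ C.card) ∨
      (B = ∅ ∧ 3 ≤ A.card ∧ 3 ≤ C.card) ∨ (C = ∅ ∧ 3 ≤ A.card ∧ 3 ≤ B.card) := by
  rcases A.eq_empty_or_nonempty with hA0 | ⟨a₀, ha₀⟩
  · rw [hA0, card_empty]
    by_cases h : B.card + C.card ≤ 6
    · left; omega
    · right; left; exact ⟨rfl, by omega, by omega⟩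
  rcases B.eq_empty_or_nonempty with hB0 | ⟨b₀, hb₀⟩
  · rw [hB0, card_empty]
    by_cases h : A.card + C.card ≤ 6
    · left; omega
    · right; right; left; exact ⟨rfl, by omega, by omega⟩
  rcases C.eq_empty_or_nonempty with hC0 | ⟨c₀, hc₀⟩
  · rw [hC0, card_empty]
    by_cases h : A.card + B.card ≤ 6
    · left; omega
    · right; right; right; exact ⟨rfl, by omega, by omega⟩
  left
  -- all non-empty
  have two : ∀ {X : Finset V} {p q : V}, (∀ x ∈ X, x = p ∨ x = q) → X.card ≤ 2 := by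
    intro X p q hX
    have : X ⊆ {p, q} := by
      intro x hx
      simpa using hX x hx
    exact (card_le_card this).trans card_le_two
  have one : ∀ {X : Finset V} {p : V}, (∀ x ∈ X, x = p) → X.card ≤ 1 := by
    intro X p hX
    have : X ⊆ {p} := by
      intro x hx
      simpa using hX x hx
    exact (card_le_card this).trans (by simp)
  by_cases h1 : ∃ b ∈ B, ∃ c ∈ C, b ≠ c
  · obtain ⟨b, hb, c, hc, hbc⟩ := h1
    have hA2 : A.card ≤ 2 := two (p := b) (q := c) (fun a ha => by
      by_contra hcon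
      rw [not_or] at hcon
      exact hno a ha b hb c hc hcon.1 hcon.2 hbc)
    by_cases h2 : ∃ a ∈ A, ∃ c ∈ C, a ≠ c
    · obtain ⟨a, ha, c', hc', hac⟩ := h2
      have hB2 : B.card ≤ 2 := two (p := a) (q := c') (fun b' hb' => by
        by_contra hcon
        rw [not_or] at hcon
        exact hno a ha b' hb' c' hc' (Ne.symm hcon.1) hac hcon.2)
      by_cases h3 : ∃ a ∈ A, ∃ b ∈ B, a ≠ b
      · obtain ⟨a', ha', b', hb', hab⟩ := h3
        have hC2 : C.card ≤ 2 := two (p := a') (q := b') (fun c'' hc'' => by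
          by_contra hcon
          rw [not_or] at hcon
          exact hno a' ha' b' hb' c'' hc'' hab (Ne.symm hcon.1) (Ne.symm hcon.2))
        omega
      · push Not at h3
        have hA1 : A.card ≤ 1 := one (p := b₀) (fun a ha => h3 a ha b₀ hb₀)
        have hB1 : B.card ≤ 1 := one (p := a₀) (fun b hb => (h3 a₀ ha₀ b hb).symm)
        omega
    · push Not at h2
      have hA1 : A.card ≤ 1 := one (p := c₀) (fun a ha => h2 a ha c₀ hc₀)
      have hC1 : C.card ≤ 1 := one (p := a₀) (fun c hc => (h2 a₀ ha₀ c hc).symm)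
      omega
  · push Not at h1
    have hB1 : B.card ≤ 1 := one (p := c₀) (fun b hb => h1 b hb c₀ hc₀)
    have hC1 : C.card ≤ 1 := one (p := b₀) (fun c hc => (h1 b₀ hb₀ c hc).symm)
    omega

section

variable {H : Finset (Finset V)}

/-- The outside neighbours of the pair `a`, `b` relative to the set `S`. -/
def NO (H : Finset (Finset V)) (S : Finset V) (a b : V) : Finset V :=
  univ.filter (fun w => w ∉ S ∧ ({a, b, w} : Finset V) ∈ H)

theorem mem_NO {S : Finset V} {a b w : V} : w ∈ NO H S a b ↔ w ∉ S ∧ ({a, b, w} : Finset V) ∈ H := by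
  simp [NO]

/-- At most four outside neighbours. -/
theorem NO_card (h : Hyp H 2) {e f : Finset V} (he : e ∈ H) (hf : f ∈ H) (hd : Disjoint e f)
    (a b : V) : (NO H (e ∪ f) a b).card ≤ 4 := by
  have hne : e ≠ f := by
    intro hh
    rw [hh, disjoint_self] at hd
    have := h.three f hf
    rw [hd] at this
    simp at this
  have hPm : IsMatching ({e, f} : Finset (Finset V)) := by
    intro u hu v hv huv
    simp only [mem_insert, mem_singleton] at hu hv
    rcases hu with rfl | rfl <;> rcases hv with rfl | rfl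
    · exact absurd rfl huv
    · exact hd
    · exact hd.symm
    · exact absurd rfl huv
  have hPs : ({e, f} : Finset (Finset V)) ⊆ H := by
    intro u hu
    simp only [mem_insert, mem_singleton] at hu
    rcases hu with rfl | rfl <;> assumption
  have hPc : ({e, f} : Finset (Finset V)).card = 2 := card_pair hne
  have hVS : VS ({e, f} : Finset (Finset V)) = e ∪ f := by
    ext v
    simp [VS]
  obtain ⟨P, hP, hm, hc, hav⟩ := h.avoid a b
  have hN : NO H (e ∪ f) a b ⊆ VS P \ (e ∪ f) := by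
    intro w hw
    rw [mem_NO] at hw
    rw [mem_sdiff]
    exact ⟨h.N_subset hP hm hc hav (mem_N.2 hw.2), hw.1⟩
  have h1 : VS P \ (e ∪ f) = P.biUnion (fun g => g \ (e ∪ f)) := by
    ext v
    simp only [mem_sdiff, mem_VS, mem_biUnion]
    constructor
    · rintro ⟨⟨g, hg, hv⟩, hv2⟩
      exact ⟨g, hg, hv, hv2⟩
    · rintro ⟨g, hg, hv, hv2⟩
      exact ⟨⟨g, hg, hv⟩, hv2⟩
  have h2 : ∀ g ∈ P, (g \ (e ∪ f)).card ≤ 2 := by
    intro g hg
    have h3 := h.meets hPs hPm hPc (hP hg)
    rw [hVS, Finset.not_disjoint_iff] at h3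
    obtain ⟨v, hv1, hv2⟩ := h3
    have h4 : g \ (e ∪ f) ⊆ g.erase v := by
      intro w hw
      rw [mem_sdiff] at hw
      exact mem_erase.2 ⟨fun hh => hw.2 (hh ▸ hv2), hw.1⟩
    have h5 := card_le_card h4
    rw [card_erase_of_mem hv1, h.three g (hP hg)] at h5
    exact h5
  calc (NO H (e ∪ f) a b).card ≤ (VS P \ (e ∪ f)).card := card_le_card hN
    _ = (P.biUnion (fun g => g \ (e ∪ f))).card := by rw [h1]
    _ ≤ ∑ g ∈ P, (g \ (e ∪ f)).card := card_biUnion_le
    _ ≤ ∑ _g ∈ P, 2 := Finset.sum_le_sum h2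
    _ = 4 := by rw [sum_const, hc]; rfl

/-- The killing lemma: if the pair `a'' b''` has three outside neighbours, then `{a,b,a'}` is not
an edge, where `e = {a,a',a''}` and `f = {b,b',b''}`. -/
theorem kill (h : Hyp H 2) {e f : Finset V} (hf : f ∈ H)
    (hd : Disjoint e f)
    (hHf : Hyp (H.filter (fun g => Disjoint g e)) 1)
    {a a' a'' b b' b'' : V} (he3 : e = {a, a', a''}) (hf3 : f = {b, b', b''})
    (ha1 : a ≠ a'') (ha2 : a' ≠ a'') (hb2 : b ≠ b') (hb3 : b' ≠ b'') (hb4 : b ≠ b'')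
    (hN : 3 ≤ (NO H (e ∪ f) a'' b'').card) : ({a, b, a'} : Finset V) ∉ H := by
  intro hmem
  obtain ⟨g, hg, hgb, hgb''⟩ := Hyp.one_avoid hHf b b''
  have hfm : f ∈ H.filter (fun g => Disjoint g e) := mem_filter.2 ⟨hf, hd.symm⟩
  obtain ⟨v, hv1, hv2⟩ := Hyp.one_inter hHf hg hfm
  rw [mem_filter] at hg
  have hvb' : v = b' := by
    rw [hf3] at hv2
    simp only [mem_insert, mem_singleton] at hv2
    rcases hv2 with rfl | rfl | rfl
    · exact absurd hv1 hgb
    · rfl
    · exact absurd hv1 hgb''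
  subst hvb'
  -- an outside neighbour not in `g`
  have h1 : ∃ w ∈ NO H (e ∪ f) a'' b'', w ∉ g := by
    by_contra hcon
    push Not at hcon
    have h2 : NO H (e ∪ f) a'' b'' ⊆ g.erase v := by
      intro w hw
      refine mem_erase.2 ⟨?_, hcon w hw⟩
      rintro rfl
      exact (mem_NO.1 hw).1 (mem_union_right _ hv2)
    have h3 := card_le_card h2
    rw [card_erase_of_mem hv1, h.three g hg.1] at h3
    omega
  obtain ⟨w, hw, hwg⟩ := h1
  rw [mem_NO, mem_union, not_or] at hw
  obtain ⟨⟨hwe, hwf⟩, hwH⟩ := hw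
  have hef : ∀ u ∈ e, ∀ t ∈ f, u ≠ t := fun u hu t ht hut => Finset.disjoint_left.1 hd hu (hut ▸ ht)
  have hge : ∀ u ∈ e, u ∉ g := fun u hu hug => Finset.disjoint_left.1 hg.2 hug hu
  have hae : a ∈ e := by rw [he3]; simp
  have hae' : a' ∈ e := by rw [he3]; simp
  have hae'' : a'' ∈ e := by rw [he3]; simp
  have hbf : b ∈ f := by rw [hf3]; simp
  have hbf'' : b'' ∈ f := by rw [hf3]; simp
  refine no3 h hmem hwH hg.1 ?_ ?_ ?_
  · rw [Finset.disjoint_left]
    intro t ht1 ht2
    simp only [mem_insert, mem_singleton] at ht1 ht2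
    rcases ht1 with rfl | rfl | rfl
    · rcases ht2 with h5 | h5 | h5
      · exact ha1 h5
      · exact hef _ hae _ hbf'' h5
      · exact hwe (h5 ▸ hae)
    · rcases ht2 with h5 | h5 | h5
      · exact hef _ hae'' _ hbf h5.symm
      · exact hb4 h5
      · exact hwf (h5 ▸ hbf)
    · rcases ht2 with h5 | h5 | h5
      · exact ha2 h5
      · exact hef _ hae' _ hbf'' h5
      · exact hwe (h5 ▸ hae')
  · rw [Finset.disjoint_left]
    intro t ht1 ht2
    simp only [mem_insert, mem_singleton] at ht1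
    rcases ht1 with rfl | rfl | rfl
    · exact hge _ hae ht2
    · exact hgb ht2
    · exact hge _ hae' ht2
  · rw [Finset.disjoint_left]
    intro t ht1 ht2
    simp only [mem_insert, mem_singleton] at ht1
    rcases ht1 with rfl | rfl | rfl
    · exact hge _ hae'' ht2
    · exact hgb'' ht2
    · exact hwg ht2

/-- Three pairs forming a perfect matching between the blocks. -/
theorem pm (h : Hyp H 2) {e f : Finset V} (he : e ∈ H) (hf : f ∈ H) (hd : Disjoint e f)
    {a a' a'' b b' b'' : V} (hae : a ∈ e) (hae' : a' ∈ e) (hae'' : a'' ∈ e)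
    (hbf : b ∈ f) (hbf' : b' ∈ f) (hbf'' : b'' ∈ f)
    (ha : a ≠ a') (ha1 : a ≠ a'') (ha2 : a' ≠ a'') (hb2 : b ≠ b') (hb3 : b' ≠ b'')
    (hb4 : b ≠ b'') :
    (NO H (e ∪ f) a b).card + (NO H (e ∪ f) a' b').card + (NO H (e ∪ f) a'' b'').card ≤ 6 ∨
      (NO H (e ∪ f) a b = ∅ ∧ 3 ≤ (NO H (e ∪ f) a' b').card ∧
        3 ≤ (NO H (e ∪ f) a'' b'').card) ∨
      (NO H (e ∪ f) a' b' = ∅ ∧ 3 ≤ (NO H (e ∪ f) a b).card ∧
        3 ≤ (NO H (e ∪ f) a'' b'').card) ∨
      (NO H (e ∪ f) a'' b'' = ∅ ∧ 3 ≤ (NO H (e ∪ f) a b).card ∧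
        3 ≤ (NO H (e ∪ f) a' b').card) := by
  refine sdr ?_ (NO_card h he hf hd _ _) (NO_card h he hf hd _ _) (NO_card h he hf hd _ _)
  intro u hu v hv w hw huv huw hvw
  rw [mem_NO, mem_union, not_or] at hu hv hw
  have hef : ∀ u ∈ e, ∀ t ∈ f, u ≠ t := fun u hu t ht hut => Finset.disjoint_left.1 hd hu (hut ▸ ht)
  have aux : ∀ {p q r p' q' r' : V}, p ∈ e → q ∈ f → p' ∈ e → q' ∈ f → p ≠ p' → q ≠ q' →
      (r ∉ e ∧ r ∉ f) → (r' ∉ e ∧ r' ∉ f) → r ≠ r' →
      Disjoint ({p, q, r} : Finset V) {p', q', r'} := by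
    intro p q r p' q' r' hp hq hp' hq' hpp hqq hr hr' hrr
    rw [Finset.disjoint_left]
    intro t ht1 ht2
    simp only [mem_insert, mem_singleton] at ht1 ht2
    rcases ht1 with rfl | rfl | rfl
    · rcases ht2 with h5 | h5 | h5
      · exact hpp h5
      · exact hef _ hp _ hq' h5
      · exact hr'.1 (h5 ▸ hp)
    · rcases ht2 with h5 | h5 | h5
      · exact hef _ hp' _ hq h5.symm
      · exact hqq h5
      · exact hr'.2 (h5 ▸ hq)
    · rcases ht2 with h5 | h5 | h5
      · exact hr.1 (h5 ▸ hp')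
      · exact hr.2 (h5 ▸ hq')
      · exact hrr h5
  exact no3 h hu.2 hv.2 hw.2 (aux hae hbf hae' hbf' ha hb2 hu.1 hv.1 huv)
    (aux hae hbf hae'' hbf'' ha1 hb4 hu.1 hw.1 huw)
    (aux hae' hbf' hae'' hbf'' ha2 hb3 hv.1 hw.1 hvw)

end

end Res41
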