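import Pool.Agent.Helper41.Res.B36

/-!
# At most 36 edges meet both blocks: the final count
-/

namespace Res41

open Finset Res12

set_option linter.unusedSectionVars false

variable {V : Type} [Fintype V] [DecidableEq V]

/-- The count as a statement about numbers. -/
theorem count36 (d b c1 c2 : Fin 3 → Fin 3 → ℕ)
    (hp : ∀ i i' i'' j j' j'' : Fin 3, i ≠ i' → i ≠ i'' → i' ≠ i'' → j ≠ j' → j ≠ j'' → j' ≠ j'' →
      d i j + d i' j' + d i'' j'' ≤ 6 + 2 * (b i j + b i' j' + b i'' j''))
    (h1 : ∀ i j, 2 * c1 i j + b (i + 1) j + b (i + 2) j ≤ 2)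
    (h2 : ∀ i j, 2 * c2 i j + b i (j + 1) + b i (j + 2) ≤ 2) :
    ∑ i, ∑ j, (d i j + c1 i j + c2 i j) ≤ 36 := by
  have p1 := hp 0 1 2 0 1 2 (by decide) (by decide) (by decide) (by decide) (by decide) (by decide)
  have p2 := hp 0 1 2 1 2 0 (by decide) (by decide) (by decide) (by decide) (by decide) (by decide)
  have p3 := hp 0 1 2 2 0 1 (by decide) (by decide) (by decide) (by decide) (by decide) (by decide)
  have p4 := hp 0 1 2 0 2 1 (by decide) (by decide) (by decide) (by decide) (by decide) (by decide)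
  have p5 := hp 0 1 2 1 0 2 (by decide) (by decide) (by decide) (by decide) (by decide) (by decide)
  have p6 := hp 0 1 2 2 1 0 (by decide) (by decide) (by decide) (by decide) (by decide) (by decide)
  have a00 := h1 0 0
  have a01 := h1 0 1
  have a02 := h1 0 2
  have a10 := h1 1 0
  have a11 := h1 1 1
  have a12 := h1 1 2
  have a20 := h1 2 0
  have a21 := h1 2 1
  have a22 := h1 2 2
  have b00 := h2 0 0
  have b01 := h2 0 1
  have b02 := h2 0 2
  have b10 := h2 1 0
  have b11 := h2 1 1
  have b12 := h2 1 2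
  have b20 := h2 2 0
  have b21 := h2 2 1
  have b22 := h2 2 2
  have e01 : (0 : Fin 3) + 1 = 1 := rfl
  have e02 : (0 : Fin 3) + 2 = 2 := rfl
  have e11 : (1 : Fin 3) + 1 = 2 := rfl
  have e12 : (1 : Fin 3) + 2 = 0 := rfl
  have e21 : (2 : Fin 3) + 1 = 0 := rfl
  have e22 : (2 : Fin 3) + 2 = 1 := rfl
  rw [e01, e02] at a00 a01 a02
  rw [e11, e12] at a10 a11 a12
  rw [e21, e22] at a20 a21 a22
  rw [e01, e02] at b00 b10 b20
  rw [e11, e12] at b01 b11 b21
  rw [e21, e22] at b02 b12 b22
  simp only [Fin.sum_univ_three]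
  clear hp h1 h2 e01 e02 e11 e12 e21 e22
  linarith

theorem univ3 : ∀ i i' i'' : Fin 3, i ≠ i' → i ≠ i'' → i' ≠ i'' →
    (univ : Finset (Fin 3)) = {i, i', i''} := by decide

theorem third : ∀ i i' : Fin 3, i ≠ i' → ∃ k : Fin 3, (i = k + 1 ∧ i' = k + 2) ∨
    (i = k + 2 ∧ i' = k + 1) := by decide

theorem NO_comm (H : Finset (Finset V)) (S T : Finset V) (a b : V) (hST : S = T) :
    NO H S a b = NO H T b a := by
  subst hST
  ext w
  rw [mem_NO, mem_NO, Finset.insert_comm]

/-- **At most 36 edges meet both blocks.** -/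
theorem b36 {H : Finset (Finset V)} (h : Hyp H 2) {e f : Finset V} (he : e ∈ H) (hf : f ∈ H)
    (hd : Disjoint e f)
    (hHe : Hyp (H.filter (fun g => Disjoint g f)) 1)
    (hHf : Hyp (H.filter (fun g => Disjoint g e)) 1) :
    (H.filter (fun g => ¬ Disjoint g e ∧ ¬ Disjoint g f)).card ≤ 36 := by
  classical
  have mk : ∀ e ∈ H, ∃ x : Fin 3 → V, Function.Injective x ∧ e = univ.image x := by
    intro e he
    obtain ⟨a, b, c, hab, hac, hbc, hx⟩ := Finset.card_eq_three.1 (h.three e he)
    refine ⟨![a, b, c], ?_, ?_⟩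
    · intro i j hij
      fin_cases i <;> fin_cases j <;> simp_all
    · rw [hx, univ3 0 1 2 (by decide) (by decide) (by decide)]
      simp [Finset.image_insert]
  obtain ⟨x, hx, hxe⟩ := mk e he
  obtain ⟨y, hy, hye⟩ := mk f hf
  have hxm : ∀ i, x i ∈ e := fun i => by rw [hxe]; exact mem_image_of_mem _ (mem_univ _)
  have hym : ∀ i, y i ∈ f := fun i => by rw [hye]; exact mem_image_of_mem _ (mem_univ _)
  have hx3 : ∀ i i' i'' : Fin 3, i ≠ i' → i ≠ i'' → i' ≠ i'' → e = {x i, x i', x i''} := by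
    intro i i' i'' h1 h2 h3
    rw [hxe, univ3 i i' i'' h1 h2 h3]
    simp [Finset.image_insert]
  have hy3 : ∀ i i' i'' : Fin 3, i ≠ i' → i ≠ i'' → i' ≠ i'' → f = {y i, y i', y i''} := by
    intro i i' i'' h1 h2 h3
    rw [hye, univ3 i i' i'' h1 h2 h3]
    simp [Finset.image_insert]
  let d : Fin 3 → Fin 3 → ℕ := fun i j => (NO H (e ∪ f) (x i) (y j)).card
  have hd4 : ∀ i j, d i j ≤ 4 := fun i j => NO_card h he hf hd _ _
  let c1 : Fin 3 → Fin 3 → ℕ := fun i j =>
    if ({x (i + 1), x (i + 2), y j} : Finset V) ∈ H then 1 else 0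
  let c2 : Fin 3 → Fin 3 → ℕ := fun i j =>
    if ({x i, y (j + 1), y (j + 2)} : Finset V) ∈ H then 1 else 0
  let b : Fin 3 → Fin 3 → ℕ := fun i j => if ∃ i' i'' j' j'' : Fin 3, i ≠ i' ∧ i ≠ i'' ∧ i' ≠ i'' ∧
    j ≠ j' ∧ j ≠ j'' ∧ j' ≠ j'' ∧ 3 ≤ d i' j' ∧ 3 ≤ d i'' j'' then 1 else 0
  -- killing inner triples
  have k1 : ∀ i j, b i j = 1 → ∀ i', i ≠ i' → ({x i, y j, x i'} : Finset V) ∉ H := by
    intro i j hb i₁ hi₁
    have hb' : ∃ i' i'' j' j'' : Fin 3, i ≠ i' ∧ i ≠ i'' ∧ i' ≠ i'' ∧
        j ≠ j' ∧ j ≠ j'' ∧ j' ≠ j'' ∧ 3 ≤ d i' j' ∧ 3 ≤ d i'' j'' := by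
      by_contra hcon
      have : b i j = 0 := if_neg hcon
      omega
    obtain ⟨i', i'', j', j'', h1, h2, h3, h4, h5, h6, h7, h8⟩ := hb'
    have hi : i₁ = i' ∨ i₁ = i'' := by
      have : i₁ ∈ (univ : Finset (Fin 3)) := mem_univ _
      rw [univ3 i i' i'' h1 h2 h3] at this
      simp only [mem_insert, mem_singleton] at this
      exact this.resolve_left (Ne.symm hi₁)
    rcases hi with rfl | rfl
    · exact kill h hf hd hHf (hx3 i i₁ i'' h1 h2 h3) (hy3 j j' j'' h4 h5 h6) (hx.ne h2) (hx.ne h3)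
        (hy.ne h4) (hy.ne h6) (hy.ne h5) h8
    · exact kill h hf hd hHf (hx3 i i₁ i' h2 h1 h3.symm) (hy3 j j'' j' h5 h4 h6.symm) (hx.ne h1)
        (hx.ne h3.symm) (hy.ne h5) (hy.ne h6.symm) (hy.ne h4) h7
  have k2 : ∀ i j, b i j = 1 → ∀ j', j ≠ j' → ({y j, x i, y j'} : Finset V) ∉ H := by
    intro i j hb j₁ hj₁
    have hb' : ∃ i' i'' j' j'' : Fin 3, i ≠ i' ∧ i ≠ i'' ∧ i' ≠ i'' ∧
        j ≠ j' ∧ j ≠ j'' ∧ j' ≠ j'' ∧ 3 ≤ d i' j' ∧ 3 ≤ d i'' j'' := by
      by_contra hcon
      have : b i j = 0 := if_neg hcon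
      omega
    obtain ⟨i', i'', j', j'', h1, h2, h3, h4, h5, h6, h7, h8⟩ := hb'
    have hj : j₁ = j' ∨ j₁ = j'' := by
      have : j₁ ∈ (univ : Finset (Fin 3)) := mem_univ _
      rw [univ3 j j' j'' h4 h5 h6] at this
      simp only [mem_insert, mem_singleton] at this
      exact this.resolve_left (Ne.symm hj₁)
    have hcomm : ∀ i j, NO H (f ∪ e) (y j) (x i) = NO H (e ∪ f) (x i) (y j) := fun i j =>
      NO_comm H _ _ _ _ (union_comm _ _)
    rcases hj with rfl | rfl
    · refine kill h he hd.symm hHe (hy3 j j₁ j'' h4 h5 h6) (hx3 i i' i'' h1 h2 h3) (hy.ne h5)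
        (hy.ne h6) (hx.ne h1) (hx.ne h3) (hx.ne h2) ?_
      rw [hcomm]
      exact h8
    · refine kill h he hd.symm hHe (hy3 j j₁ j' h5 h4 h6.symm) (hx3 i i'' i' h2 h1 h3.symm)
        (hy.ne h4) (hy.ne h6.symm) (hx.ne h2) (hx.ne h3.symm) (hx.ne h1) ?_
      rw [hcomm]
      exact h7
  have hb01 : ∀ i j, b i j = 0 ∨ b i j = 1 := by
    intro i j
    by_cases hc : ∃ i' i'' j' j'' : Fin 3, i ≠ i' ∧ i ≠ i'' ∧ i' ≠ i'' ∧
        j ≠ j' ∧ j ≠ j'' ∧ j' ≠ j'' ∧ 3 ≤ d i' j' ∧ 3 ≤ d i'' j''
    · exact Or.inr (if_pos hc)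
    · exact Or.inl (if_neg hc)
  have hcount : ∑ i, ∑ j, (d i j + c1 i j + c2 i j) ≤ 36 := by
    refine count36 d b c1 c2 ?_ ?_ ?_
    · intro i i' i'' j j' j'' h1 h2 h3 h4 h5 h6
      have hpm := pm h he hf hd (hxm i) (hxm i') (hxm i'') (hym j) (hym j') (hym j'')
        (hx.ne h1) (hx.ne h2) (hx.ne h3) (hy.ne h4) (hy.ne h6) (hy.ne h5)
      have q1 := hd4 i j
      have q2 := hd4 i' j'
      have q3 := hd4 i'' j''
      rcases hpm with hh | ⟨hh1, hh2, hh3⟩ | ⟨hh1, hh2, hh3⟩ | ⟨hh1, hh2, hh3⟩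
      · have : d i j + d i' j' + d i'' j'' ≤ 6 := hh
        omega
      · have e1 : d i j = 0 := by
          show (NO H (e ∪ f) (x i) (y j)).card = 0
          rw [hh1, card_empty]
        have e2 : b i j = 1 := if_pos ⟨i', i'', j', j'', h1, h2, h3, h4, h5, h6, hh2, hh3⟩
        omega
      · have e1 : d i' j' = 0 := by
          show (NO H (e ∪ f) (x i') (y j')).card = 0
          rw [hh1, card_empty]
        have e2 : b i' j' = 1 := if_pos ⟨i, i'', j, j'', h1.symm, h3, h2, h4.symm, h6, h5, hh2, hh3⟩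
        omega
      · have e1 : d i'' j'' = 0 := by
          show (NO H (e ∪ f) (x i'') (y j'')).card = 0
          rw [hh1, card_empty]
        have e2 : b i'' j'' = 1 :=
          if_pos ⟨i, i', j, j', h2.symm, h3.symm, h1, h5.symm, h6.symm, h4, hh2, hh3⟩
        omega
    · intro i j
      have n1 : i + 1 ≠ i + 2 := by
        intro hh
        have := add_left_cancel hh
        exact absurd this (by decide)
      by_cases hc : ({x (i + 1), x (i + 2), y j} : Finset V) ∈ H
      · have e1 : c1 i j = 1 := if_pos hc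
        have e2 : b (i + 1) j = 0 := by
          rcases hb01 (i + 1) j with hh | hh
          · exact hh
          · exfalso
            apply k1 _ _ hh (i + 2) n1
            have : ({x (i + 1), y j, x (i + 2)} : Finset V) = {x (i + 1), x (i + 2), y j} := by
              rw [Finset.pair_comm]
            rw [this]
            exact hc
        have e3 : b (i + 2) j = 0 := by
          rcases hb01 (i + 2) j with hh | hh
          · exact hh
          · exfalso
            apply k1 _ _ hh (i + 1) n1.symm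
            have : ({x (i + 2), y j, x (i + 1)} : Finset V) = {x (i + 1), x (i + 2), y j} := by
              ext v
              simp only [mem_insert, mem_singleton]
              tauto
            rw [this]
            exact hc
        omega
      · have e1 : c1 i j = 0 := if_neg hc
        have e2 := hb01 (i + 1) j
        have e3 := hb01 (i + 2) j
        omega
    · intro i j
      have n1 : j + 1 ≠ j + 2 := by
        intro hh
        have := add_left_cancel hh
        exact absurd this (by decide)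
      by_cases hc : ({x i, y (j + 1), y (j + 2)} : Finset V) ∈ H
      · have e1 : c2 i j = 1 := if_pos hc
        have e2 : b i (j + 1) = 0 := by
          rcases hb01 i (j + 1) with hh | hh
          · exact hh
          · exfalso
            apply k2 _ _ hh (j + 2) n1
            have : ({y (j + 1), x i, y (j + 2)} : Finset V) = {x i, y (j + 1), y (j + 2)} := by
              rw [Finset.insert_comm]
            rw [this]
            exact hc
        have e3 : b i (j + 2) = 0 := by
          rcases hb01 i (j + 2) with hh | hh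
          · exact hh
          · exfalso
            apply k2 _ _ hh (j + 1) n1.symm
            have : ({y (j + 2), x i, y (j + 1)} : Finset V) = {x i, y (j + 1), y (j + 2)} := by
              ext v
              simp only [mem_insert, mem_singleton]
              tauto
            rw [this]
            exact hc
        omega
      · have e1 : c2 i j = 0 := if_neg hc
        have e2 := hb01 i (j + 1)
        have e3 := hb01 i (j + 2)
        omega
  -- the union bound
  have hef : ∀ u ∈ e, ∀ t ∈ f, u ≠ t := fun u hu t ht hut => Finset.disjoint_left.1 hd hu (hut ▸ ht)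
  have hsub : H.filter (fun g => ¬ Disjoint g e ∧ ¬ Disjoint g f) ⊆
      univ.biUnion (fun i : Fin 3 => univ.biUnion (fun j : Fin 3 =>
        ((NO H (e ∪ f) (x i) (y j)).image (fun w => ({x i, y j, w} : Finset V)) ∪
        (if ({x (i + 1), x (i + 2), y j} : Finset V) ∈ H then {{x (i + 1), x (i + 2), y j}}
          else ∅)) ∪
        (if ({x i, y (j + 1), y (j + 2)} : Finset V) ∈ H then {{x i, y (j + 1), y (j + 2)}}
          else ∅))) := by
    intro g hg
    rw [mem_filter, Finset.not_disjoint_iff, Finset.not_disjoint_iff] at hg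
    obtain ⟨hg, ⟨u, hu1, hu2⟩, ⟨v, hv1, hv2⟩⟩ := hg
    rw [hxe, mem_image] at hu2
    rw [hye, mem_image] at hv2
    obtain ⟨i, -, rfl⟩ := hu2
    obtain ⟨j, -, rfl⟩ := hv2
    obtain ⟨w, hw1, hw2, hge⟩ := exists_third (h.three g hg) hu1 hv1 (hef _ (hxm i) _ (hym j))
    by_cases hwe : w ∈ e
    · rw [hxe, mem_image] at hwe
      obtain ⟨i', -, rfl⟩ := hwe
      have hii : i ≠ i' := fun hh => hw1 (by rw [hh])
      obtain ⟨k, hk⟩ := third i i' hii
      have hge' : g = {x (k + 1), x (k + 2), y j} := by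
        rw [hge]
        rcases hk with ⟨rfl, rfl⟩ | ⟨rfl, rfl⟩
        · rw [Finset.pair_comm]
        · ext t
          simp only [mem_insert, mem_singleton]
          tauto
      rw [mem_biUnion]
      refine ⟨k, mem_univ _, ?_⟩
      rw [mem_biUnion]
      refine ⟨j, mem_univ _, ?_⟩
      apply mem_union_left
      apply mem_union_right
      rw [hge', if_pos (hge' ▸ hg)]
      exact mem_singleton_self _
    · by_cases hwf : w ∈ f
      · rw [hye, mem_image] at hwf
        obtain ⟨j', -, rfl⟩ := hwf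
        have hjj : j ≠ j' := fun hh => hw2 (by rw [hh])
        obtain ⟨k, hk⟩ := third j j' hjj
        have hge' : g = {x i, y (k + 1), y (k + 2)} := by
          rw [hge]
          rcases hk with ⟨rfl, rfl⟩ | ⟨rfl, rfl⟩
          · rfl
          · rw [Finset.pair_comm (y (k + 2))]
        rw [mem_biUnion]
        refine ⟨i, mem_univ _, ?_⟩
        rw [mem_biUnion]
        refine ⟨k, mem_univ _, ?_⟩
        apply mem_union_right
        rw [hge', if_pos (hge' ▸ hg)]
        exact mem_singleton_self _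
      · rw [mem_biUnion]
        refine ⟨i, mem_univ _, ?_⟩
        rw [mem_biUnion]
        refine ⟨j, mem_univ _, ?_⟩
        apply mem_union_left
        apply mem_union_left
        rw [mem_image]
        refine ⟨w, ?_, hge.symm⟩
        rw [mem_NO, mem_union, not_or]
        exact ⟨⟨hwe, hwf⟩, hge ▸ hg⟩
  refine (card_le_card hsub).trans (le_trans ?_ hcount)
  refine card_biUnion_le.trans (Finset.sum_le_sum fun i _ => ?_)
  refine card_biUnion_le.trans (Finset.sum_le_sum fun j _ => ?_)
  refine (card_union_le _ _).trans (Nat.add_le_add ?_ ?_)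
  · refine (card_union_le _ _).trans (Nat.add_le_add card_image_le ?_)
    by_cases hc : ({x (i + 1), x (i + 2), y j} : Finset V) ∈ H
    · have e1 : c1 i j = 1 := if_pos hc
      rw [if_pos hc, e1]
      simp
    · have e1 : c1 i j = 0 := if_neg hc
      rw [if_neg hc, e1]
      simp
  · by_cases hc : ({x i, y (j + 1), y (j + 2)} : Finset V) ∈ H
    · have e1 : c2 i j = 1 := if_pos hc
      rw [if_pos hc, e1]
      simp
    · have e1 : c2 i j = 0 := if_neg hc
      rw [if_neg hc, e1]
      simp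

end Res41
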