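import Pool.Agent.Helper12.Res.Defs

/-!
# The case `s = 1` (Erdős–Lovász): a 2-resilient 3-graph with matching number one has at most
ten edges.  Direct local proof: with an edge `{x,y,z}` fixed, at most three edges meet it exactly
in `{x}` or exactly in `{y,z}`.
-/

namespace Res41

open Finset Res12

set_option linter.unusedSectionVars false

variable {V : Type} [Fintype V] [DecidableEq V]

theorem eq3 {g : Finset V} (hc : g.card = 3) {x p q : V} (hx : x ∈ g) (hp : p ∈ g) (hq : q ∈ g)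
    (h1 : x ≠ p) (h2 : x ≠ q) (h3 : p ≠ q) : g = {x, p, q} := by
  symm
  apply Finset.eq_of_subset_of_card_le
  · intro v hv
    simp only [mem_insert, mem_singleton] at hv
    rcases hv with rfl | rfl | rfl <;> assumption
  · rw [hc, Finset.card_eq_three.2 ⟨x, p, q, h1, h2, h3, rfl⟩]

theorem exists_pair {g : Finset V} (hc : g.card = 3) {l : V} (hl : l ∈ g) :
    ∃ a b, a ≠ b ∧ a ≠ l ∧ b ≠ l ∧ g = {l, a, b} := by
  have h1 : (g.erase l).card = 2 := by rw [card_erase_of_mem hl, hc]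
  obtain ⟨a, b, hab, h2⟩ := Finset.card_eq_two.1 h1
  have ha : a ∈ g.erase l := by rw [h2]; simp
  have hb : b ∈ g.erase l := by rw [h2]; simp
  rw [mem_erase] at ha hb
  exact ⟨a, b, hab, ha.1, hb.1, eq3 hc hl ha.2 hb.2 ha.1.symm hb.1.symm hab⟩

theorem exists_third {g : Finset V} (hc : g.card = 3) {l b : V} (hl : l ∈ g) (hb : b ∈ g)
    (hlb : l ≠ b) : ∃ c, c ≠ l ∧ c ≠ b ∧ g = {l, b, c} := by
  obtain ⟨u, v, huv, hul, hvl, hg⟩ := exists_pair hc hl
  rw [hg] at hb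
  simp only [mem_insert, mem_singleton] at hb
  rcases hb with rfl | rfl | rfl
  · exact absurd rfl hlb
  · exact ⟨v, hvl, huv.symm, hg⟩
  · refine ⟨u, hul, huv, ?_⟩
    rw [hg, Finset.pair_comm]

section claim

variable {H : Finset (Finset V)}

/-- The case of two members of `B` which are disjoint outside `{y,z}`, both containing `y`. -/
theorem case_disj (h3 : ∀ e ∈ H, e.card = 3) (hI : ∀ f ∈ H, ∀ g ∈ H, ∃ v, v ∈ f ∧ v ∈ g)
    {x y z : V}
    {β β' γ : Finset V} (hβ : β ∈ H) (hβ' : β' ∈ H) (hγ : γ ∈ H)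
    (hxβ : x ∉ β) (hxβ' : x ∉ β') (hxγ : x ∉ γ) (hyβ : y ∈ β) (hyβ' : y ∈ β')
    (hzβ : z ∉ β) (hzβ' : z ∉ β') (hyγ : y ∉ γ) (hzγ : z ∈ γ)
    (hdis : ∀ v, v ∈ β → v ∈ β' → v = y) :
    (H.filter (fun f => x ∈ f ∧ y ∉ f ∧ z ∉ f)).card ≤ 3 := by
  obtain ⟨p, hp1, hp2⟩ := hI γ hγ β hβ
  obtain ⟨q, hq1, hq2⟩ := hI γ hγ β' hβ'
  have hpy : p ≠ y := fun h => hyγ (h ▸ hp1)
  have hqy : q ≠ y := fun h => hyγ (h ▸ hq1)
  have hpq : p ≠ q := fun h => hpy (hdis p hp2 (h ▸ hq2))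
  obtain ⟨b, hby, hbp, hβe⟩ := exists_third (h3 _ hβ) hyβ hp2 hpy.symm
  obtain ⟨d, hdy, hdq, hβe'⟩ := exists_third (h3 _ hβ') hyβ' hq2 hqy.symm
  have hzp : z ≠ p := fun h => hzβ (h ▸ hp2)
  have hzq : z ≠ q := fun h => hzβ' (h ▸ hq2)
  have hγe : γ = {z, p, q} := eq3 (h3 γ hγ) hzγ hp1 hq1 hzp hzq hpq
  have hbd : b ≠ d := fun h => hby (hdis b (by rw [hβe]; simp) (by rw [hβe', h]; simp))
  have hbq : b ≠ q := fun h => hby (hdis b (by rw [hβe]; simp) (by rw [hβe', h]; simp))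
  have hpd : p ≠ d := fun h => hpy (hdis p (by rw [hβe]; simp) (by rw [hβe', h]; simp))
  have hzb : z ≠ b := fun h => hzβ (by rw [hβe, h]; simp)
  have hzd : z ≠ d := fun h => hzβ' (by rw [hβe', h]; simp)
  have hpx : x ≠ p := fun h => hxβ (by rw [hβe, h]; simp)
  have hbx : x ≠ b := fun h => hxβ (by rw [hβe, h]; simp)
  have hqx : x ≠ q := fun h => hxβ' (by rw [hβe', h]; simp)
  have hdx : x ≠ d := fun h => hxβ' (by rw [hβe', h]; simp)
  have hsub : H.filter (fun f => x ∈ f ∧ y ∉ f ∧ z ∉ f) ⊆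
      {({x, p, q} : Finset V), {x, p, d}, {x, b, q}} := by
    intro g hg
    rw [mem_filter] at hg
    obtain ⟨hg, hxg, hyg, hzg⟩ := hg
    obtain ⟨u, hu1, hu2⟩ := hI g hg β hβ
    obtain ⟨v, hv1, hv2⟩ := hI g hg β' hβ'
    rw [hβe] at hu2
    rw [hβe'] at hv2
    simp only [mem_insert, mem_singleton] at hu2 hv2 ⊢
    have hu3 : u = p ∨ u = b := hu2.resolve_left (fun h => hyg (h ▸ hu1))
    have hv3 : v = q ∨ v = d := hv2.resolve_left (fun h => hyg (h ▸ hv1))
    rcases hu3 with rfl | rfl <;> rcases hv3 with rfl | rfl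
    · exact Or.inl (eq3 (h3 g hg) hxg hu1 hv1 hpx hqx hpq)
    · exact Or.inr (Or.inl (eq3 (h3 g hg) hxg hu1 hv1 hpx hdx hpd))
    · exact Or.inr (Or.inr (eq3 (h3 g hg) hxg hu1 hv1 hbx hqx hbq))
    · exfalso
      have hge := eq3 (h3 g hg) hxg hu1 hv1 hbx hdx hbd
      obtain ⟨t, ht1, ht2⟩ := hI g hg γ hγ
      rw [hge] at ht1
      rw [hγe] at ht2
      simp only [mem_insert, mem_singleton] at ht1 ht2
      rcases ht1 with rfl | rfl | rfl
      · exact hxγ (by rw [hγe]; simpa using ht2)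
      · rcases ht2 with h | h | h
        · exact hzb h.symm
        · exact hbp h
        · exact hbq h
      · rcases ht2 with h | h | h
        · exact hzd h.symm
        · exact hpd h.symm
        · exact hdq h
  exact (card_le_card hsub).trans Finset.card_le_three

/-- The case where all members of `B` meet pairwise outside `{y,z}`. -/
theorem case_tri (h3 : ∀ e ∈ H, e.card = 3) (hI : ∀ f ∈ H, ∀ g ∈ H, ∃ v, v ∈ f ∧ v ∈ g)
    {x y z : V} {β β₂ β₃ : Finset V} (hβ : β ∈ H) (hβ₂ : β₂ ∈ H) (hβ₃ : β₃ ∈ H)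
    (hxβ : x ∉ β) (hxβ₂ : x ∉ β₂)
    (h1 : y ∈ β ∨ z ∈ β) (h2 : y ∈ β₂ ∨ z ∈ β₂) (h3' : y ∈ β₃ ∨ z ∈ β₃)
    {a b c : V} (hay : a ≠ y) (haz : a ≠ z) (hby : b ≠ y) (hbz : b ≠ z) (hcy : c ≠ y)
    (hcz : c ≠ z) (hab : a ≠ b) (hac : a ≠ c) (hbc : b ≠ c)
    (ha1 : a ∈ β) (hb1 : b ∈ β) (hb2 : b ∈ β₂) (hc2 : c ∈ β₂) (ha3 : a ∈ β₃) (hc3 : c ∈ β₃) :
    (H.filter (fun f => x ∈ f ∧ y ∉ f ∧ z ∉ f)).card ≤ 3 := by
  have hax : x ≠ a := fun h => hxβ (h ▸ ha1)
  have hbx : x ≠ b := fun h => hxβ (h ▸ hb1)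
  have hcx : x ≠ c := fun h => hxβ₂ (h ▸ hc2)
  -- form of an edge with one letter from `{y,z}` and two further points
  have form : ∀ {B : Finset V}, B ∈ H → (y ∈ B ∨ z ∈ B) → ∀ {p q : V}, p ∈ B → q ∈ B → p ≠ q →
      p ≠ y → p ≠ z → q ≠ y → q ≠ z → ∀ v ∈ B, v = y ∨ v = z ∨ v = p ∨ v = q := by
    intro B hB hyz p q hp hq hpq hpy hpz hqy hqz v hv
    rcases hyz with h | h
    · have := eq3 (h3 B hB) h hp hq hpy.symm hqy.symm hpq
      rw [this] at hv
      simp only [mem_insert, mem_singleton] at hv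
      tauto
    · have := eq3 (h3 B hB) h hp hq hpz.symm hqz.symm hpq
      rw [this] at hv
      simp only [mem_insert, mem_singleton] at hv
      tauto
  have hsub : H.filter (fun f => x ∈ f ∧ y ∉ f ∧ z ∉ f) ⊆
      {({x, a, b} : Finset V), {x, a, c}, {x, b, c}} := by
    intro g hg
    rw [mem_filter] at hg
    obtain ⟨hg, hxg, hyg, hzg⟩ := hg
    obtain ⟨u, hu1, hu2⟩ := hI g hg β hβ
    obtain ⟨v, hv1, hv2⟩ := hI g hg β₂ hβ₂
    obtain ⟨w, hw1, hw2⟩ := hI g hg β₃ hβ₃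
    have hu3 := form hβ h1 ha1 hb1 hab hay haz hby hbz u hu2
    have hv3 := form hβ₂ h2 hb2 hc2 hbc hby hbz hcy hcz v hv2
    have hw3 := form hβ₃ h3' ha3 hc3 hac hay haz hcy hcz w hw2
    have hu4 : u = a ∨ u = b := by
      rcases hu3 with h | h | h | h
      · exact absurd (h ▸ hu1) hyg
      · exact absurd (h ▸ hu1) hzg
      · exact Or.inl h
      · exact Or.inr h
    have hv4 : v = b ∨ v = c := by
      rcases hv3 with h | h | h | h
      · exact absurd (h ▸ hv1) hyg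
      · exact absurd (h ▸ hv1) hzg
      · exact Or.inl h
      · exact Or.inr h
    have hw4 : w = a ∨ w = c := by
      rcases hw3 with h | h | h | h
      · exact absurd (h ▸ hw1) hyg
      · exact absurd (h ▸ hw1) hzg
      · exact Or.inl h
      · exact Or.inr h
    simp only [mem_insert, mem_singleton]
    rcases hu4 with rfl | rfl
    · rcases hv4 with rfl | rfl
      · exact Or.inl (eq3 (h3 g hg) hxg hu1 hv1 hax hbx hab)
      · exact Or.inr (Or.inl (eq3 (h3 g hg) hxg hu1 hv1 hax hcx hac))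
    · rcases hw4 with rfl | rfl
      · exact Or.inl (eq3 (h3 g hg) hxg hw1 hu1 hax hbx hab)
      · exact Or.inr (Or.inr (eq3 (h3 g hg) hxg hu1 hw1 hbx hcx hbc))
  exact (card_le_card hsub).trans Finset.card_le_three

/-- At most three edges meet the edge `{x,y,z}` exactly in `{x}` or exactly in `{y,z}`. -/
theorem claim (h3 : ∀ e ∈ H, e.card = 3)
    (hI : ∀ f ∈ H, ∀ g ∈ H, ∃ v, v ∈ f ∧ v ∈ g) (hA : ∀ a b : V, ∃ g ∈ H, a ∉ g ∧ b ∉ g)
    {x y z : V} (hxy : x ≠ y) (hxz : x ≠ z) (hyz : y ≠ z) (he : ({x, y, z} : Finset V) ∈ H) :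
    (H.filter (fun f => x ∈ f ∧ y ∉ f ∧ z ∉ f)).card +
      (H.filter (fun f => x ∉ f ∧ y ∈ f ∧ z ∈ f)).card ≤ 3 := by
  -- an edge not containing `x` contains `y` or `z`
  have hyz' : ∀ β ∈ H, x ∉ β → y ∈ β ∨ z ∈ β := by
    intro β hβ hx
    obtain ⟨v, hv1, hv2⟩ := hI β hβ _ he
    simp only [mem_insert, mem_singleton] at hv2
    rcases hv2 with rfl | rfl | rfl
    · exact absurd hv1 hx
    · exact Or.inl hv1
    · exact Or.inr hv1
  by_cases hD : ∃ d ∈ H, x ∉ d ∧ y ∈ d ∧ z ∈ d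
  · obtain ⟨d, hd, hxd, hyd, hzd⟩ := hD
    obtain ⟨w, hwy, hwz, hde⟩ := exists_third (h3 d hd) hyd hzd hyz
    have hwx : x ≠ w := fun h => hxd (by rw [hde, h]; simp)
    -- every member of the first family contains `w`
    have hGw : ∀ g ∈ H, y ∉ g → z ∉ g → w ∈ g := by
      intro g hg hyg hzg
      obtain ⟨v, hv1, hv2⟩ := hI g hg d hd
      rw [hde] at hv2
      simp only [mem_insert, mem_singleton] at hv2
      rcases hv2 with rfl | rfl | rfl
      · exact absurd hv1 hyg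
      · exact absurd hv1 hzg
      · exact hv1
    obtain ⟨β, hβ, hxβ, hwβ⟩ := hA x w
    have hG2 : (H.filter (fun f => x ∈ f ∧ y ∉ f ∧ z ∉ f)).card ≤ 2 := by
      have hsub : H.filter (fun f => x ∈ f ∧ y ∉ f ∧ z ∉ f) ⊆
          (β \ {y, z}).image (fun v => ({x, w, v} : Finset V)) := by
        intro g hg
        rw [mem_filter] at hg
        obtain ⟨hg, hxg, hyg, hzg⟩ := hg
        obtain ⟨v, hv1, hv2⟩ := hI g hg β hβ
        rw [mem_image]
        refine ⟨v, ?_, ?_⟩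
        · rw [mem_sdiff, mem_insert, mem_singleton, not_or]
          exact ⟨hv2, fun h => hyg (h ▸ hv1), fun h => hzg (h ▸ hv1)⟩
        · exact (eq3 (h3 g hg) hxg (hGw g hg hyg hzg) hv1 hwx (fun h => hxβ (h ▸ hv2))
            (fun h => hwβ (h ▸ hv2))).symm
      refine (card_le_card hsub).trans (card_image_le.trans ?_)
      rcases hyz' β hβ hxβ with h | h
      · have h1 : β \ {y, z} ⊆ β.erase y := by
          intro v hv
          rw [mem_sdiff, mem_insert, not_or] at hv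
          exact mem_erase.2 ⟨hv.2.1, hv.1⟩
        have h2 := card_le_card h1
        rw [card_erase_of_mem h, h3 β hβ] at h2
        exact h2
      · have h1 : β \ {y, z} ⊆ β.erase z := by
          intro v hv
          rw [mem_sdiff, mem_insert, mem_singleton, not_or] at hv
          exact mem_erase.2 ⟨hv.2.2, hv.1⟩
        have h2 := card_le_card h1
        rw [card_erase_of_mem h, h3 β hβ] at h2
        exact h2
    obtain ⟨g₀, hg₀, hyg₀, hzg₀⟩ := hA y z
    have hxg₀ : x ∈ g₀ := by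
      by_contra h
      rcases hyz' g₀ hg₀ h with h' | h'
      · exact hyg₀ h'
      · exact hzg₀ h'
    have hD2 : (H.filter (fun f => x ∉ f ∧ y ∈ f ∧ z ∈ f)).card ≤ 2 := by
      have hsub : H.filter (fun f => x ∉ f ∧ y ∈ f ∧ z ∈ f) ⊆
          (g₀.erase x).image (fun v => ({y, z, v} : Finset V)) := by
        intro d' hd'
        rw [mem_filter] at hd'
        obtain ⟨hd', hxd', hyd', hzd'⟩ := hd'
        obtain ⟨v, hv1, hv2⟩ := hI d' hd' g₀ hg₀
        rw [mem_image]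
        refine ⟨v, mem_erase.2 ⟨fun h => hxd' (h ▸ hv1), hv2⟩, ?_⟩
        exact (eq3 (h3 d' hd') hyd' hzd' hv1 hyz (fun h => hyg₀ (h ▸ hv2))
          (fun h => hzg₀ (h ▸ hv2))).symm
      refine (card_le_card hsub).trans (card_image_le.trans ?_)
      rw [card_erase_of_mem hxg₀, h3 g₀ hg₀]
    by_cases hG1 : (H.filter (fun f => x ∈ f ∧ y ∉ f ∧ z ∉ f)).card ≤ 1
    · omega
    · push Not at hG1
      obtain ⟨g, hg, g', hg', hgg⟩ := Finset.one_lt_card.1 hG1
      rw [mem_filter] at hg hg'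
      obtain ⟨hg, hxg, hyg, hzg⟩ := hg
      obtain ⟨hg', hxg', hyg', hzg'⟩ := hg'
      obtain ⟨v, hvx, hvw, hge⟩ := exists_third (h3 g hg) hxg (hGw g hg hyg hzg) hwx
      obtain ⟨v', hvx', hvw', hge'⟩ := exists_third (h3 g' hg') hxg' (hGw g' hg' hyg' hzg') hwx
      have hvv : v ≠ v' := by
        intro h
        exact hgg (by rw [hge, hge', h])
      have hD1 : (H.filter (fun f => x ∉ f ∧ y ∈ f ∧ z ∈ f)).card ≤ 1 := by
        have hsub : H.filter (fun f => x ∉ f ∧ y ∈ f ∧ z ∈ f) ⊆ {({y, z, w} : Finset V)} := by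
          intro d' hd'
          rw [mem_filter] at hd'
          obtain ⟨hd', hxd', hyd', hzd'⟩ := hd'
          obtain ⟨u, hu1, hu2⟩ := hI d' hd' g hg
          obtain ⟨u', hu1', hu2'⟩ := hI d' hd' g' hg'
          have huy : u ≠ y := fun h => hyg (h ▸ hu2)
          have huz : u ≠ z := fun h => hzg (h ▸ hu2)
          have huy' : u' ≠ y := fun h => hyg' (h ▸ hu2')
          have huz' : u' ≠ z := fun h => hzg' (h ▸ hu2')
          have hux : u ≠ x := fun h => hxd' (h ▸ hu1)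
          have hux' : u' ≠ x := fun h => hxd' (h ▸ hu1')
          have hd'e := eq3 (h3 d' hd') hyd' hzd' hu1 hyz huy.symm huz.symm
          have huu : u' = u := by
            rw [hd'e] at hu1'
            simp only [mem_insert, mem_singleton] at hu1'
            rcases hu1' with h | h | h
            · exact absurd h huy'
            · exact absurd h huz'
            · exact h
          rw [hge] at hu2
          rw [hge', huu] at hu2'
          simp only [mem_insert, mem_singleton] at hu2 hu2'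
          have : u = w := by
            rcases hu2 with h | h | h
            · exact absurd h hux
            · exact h
            · rcases hu2' with h' | h' | h'
              · exact absurd h' hux
              · exact h'
              · exact absurd (h.symm.trans h') hvv
          rw [mem_singleton, hd'e, this]
        exact (card_le_card hsub).trans (by simp)
      omega
  · -- no edge `y z w`
    have hDe : H.filter (fun f => x ∉ f ∧ y ∈ f ∧ z ∈ f) = ∅ := by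
      rw [Finset.filter_eq_empty_iff]
      intro d hd hcon
      exact hD ⟨d, hd, hcon⟩
    rw [hDe, card_empty, add_zero]
    have hex : ∀ β ∈ H, x ∉ β → y ∈ β → z ∉ β := fun β hβ h1 h2 h4 => hD ⟨β, hβ, h1, h2, h4⟩
    by_cases hB : ∃ β ∈ H, ∃ β' ∈ H, x ∉ β ∧ x ∉ β' ∧ ∀ v, v ∈ β → v ∈ β' → v = y ∨ v = z
    · obtain ⟨β, hβ, β', hβ', hxβ, hxβ', hdis⟩ := hB
      obtain ⟨v, hv1, hv2⟩ := hI β hβ β' hβ'
      rcases hdis v hv1 hv2 with rfl | rfl
      · -- both contain `y`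
        obtain ⟨γ, hγ, hxγ, hyγ⟩ := hA x v
        have hzγ : z ∈ γ := (hyz' γ hγ hxγ).resolve_left hyγ
        have hzβ := hex β hβ hxβ hv1
        have hzβ' := hex β' hβ' hxβ' hv2
        exact case_disj h3 hI hβ hβ' hγ hxβ hxβ' hxγ hv1 hv2 hzβ hzβ' hyγ hzγ
          (fun t ht1 ht2 => (hdis t ht1 ht2).resolve_right (fun h => hzβ (h ▸ ht1)))
      · obtain ⟨γ, hγ, hxγ, hyγ⟩ := hA x v
        have hzγ : y ∈ γ := (hyz' γ hγ hxγ).resolve_right hyγ
        have hzβ : y ∉ β := fun h => hex β hβ hxβ h hv1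
        have hzβ' : y ∉ β' := fun h => hex β' hβ' hxβ' h hv2
        have := case_disj h3 hI hβ hβ' hγ hxβ hxβ' hxγ hv1 hv2 hzβ hzβ' hyγ hzγ
          (fun t ht1 ht2 => (hdis t ht1 ht2).resolve_left (fun h => hzβ (h ▸ ht1)))
        refine le_trans (card_le_card ?_) this
        intro g hg
        rw [mem_filter] at hg ⊢
        tauto
    · push Not at hB
      obtain ⟨β, hβ, hxβ, -⟩ := hA x x
      -- two points of `β` outside `{y,z}`
      obtain ⟨a, b, hab, haβ, hbβ, hay, haz, hby, hbz⟩ : ∃ a b, a ≠ b ∧ a ∈ β ∧ b ∈ β ∧ a ≠ y ∧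
          a ≠ z ∧ b ≠ y ∧ b ≠ z := by
        by_cases hy : y ∈ β
        · have hz := hex β hβ hxβ hy
          obtain ⟨a, b, hab, hay, hby, hβe⟩ := exists_pair (h3 β hβ) hy
          have ha : a ∈ β := by rw [hβe]; simp
          have hb : b ∈ β := by rw [hβe]; simp
          exact ⟨a, b, hab, ha, hb, hay, fun h => hz (h ▸ ha), hby, fun h => hz (h ▸ hb)⟩
        · have hz := (hyz' β hβ hxβ).resolve_left hy
          obtain ⟨a, b, hab, hay, hby, hβe⟩ := exists_pair (h3 β hβ) hz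
          have ha : a ∈ β := by rw [hβe]; simp
          have hb : b ∈ β := by rw [hβe]; simp
          exact ⟨a, b, hab, ha, hb, fun h => hy (h ▸ ha), hay, fun h => hy (h ▸ hb), hby⟩
      -- form of `β`
      have hβform : ∀ v ∈ β, v ≠ y → v ≠ z → v = a ∨ v = b := by
        intro v hv hvy hvz
        rcases hyz' β hβ hxβ with h | h
        · have := eq3 (h3 β hβ) h haβ hbβ hay.symm hby.symm hab
          rw [this] at hv
          simp only [mem_insert, mem_singleton] at hv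
          exact hv.resolve_left hvy
        · have := eq3 (h3 β hβ) h haβ hbβ haz.symm hbz.symm hab
          rw [this] at hv
          simp only [mem_insert, mem_singleton] at hv
          exact hv.resolve_left hvz
      obtain ⟨β₂, hβ₂, hxβ₂, haβ₂⟩ := hA x a
      obtain ⟨β₃, hβ₃, hxβ₃, hbβ₃⟩ := hA x b
      have hbβ₂ : b ∈ β₂ := by
        obtain ⟨v, hv1, hv2, hv3⟩ := hB β hβ β₂ hβ₂ hxβ hxβ₂
        rcases hβform v hv1 hv3.1 hv3.2 with rfl | rfl
        · exact absurd hv2 haβ₂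
        · exact hv2
      have haβ₃ : a ∈ β₃ := by
        obtain ⟨v, hv1, hv2, hv3⟩ := hB β hβ β₃ hβ₃ hxβ hxβ₃
        rcases hβform v hv1 hv3.1 hv3.2 with rfl | rfl
        · exact hv2
        · exact absurd hv2 hbβ₃
      obtain ⟨c, hc2, hc3, hc⟩ := hB β₂ hβ₂ β₃ hβ₃ hxβ₂ hxβ₃
      exact case_tri h3 hI hβ hβ₂ hβ₃ hxβ hxβ₂ (hyz' β hβ hxβ) (hyz' β₂ hβ₂ hxβ₂)
        (hyz' β₃ hβ₃ hxβ₃) hay haz hby hbz hc.1 hc.2 hab (fun h => haβ₂ (h ▸ hc2))
        (fun h => hbβ₃ (h ▸ hc3)) haβ hbβ hbβ₂ hc2 haβ₃ hc3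

end claim

theorem Hyp.one_inter {H : Finset (Finset V)} (h : Hyp H 1) {f g : Finset V} (hf : f ∈ H)
    (hg : g ∈ H) : ∃ v, v ∈ f ∧ v ∈ g := by
  have h1 := h.meets (P := {f}) (by simpa using hf) (by
    intro a ha b hb hab
    rw [mem_singleton] at ha hb
    exact absurd (ha.trans hb.symm) hab) (by simp) hg
  rw [Finset.not_disjoint_iff] at h1
  obtain ⟨v, hv1, hv2⟩ := h1
  rw [mem_VS] at hv2
  obtain ⟨e, he, hve⟩ := hv2
  rw [mem_singleton] at he
  exact ⟨v, he ▸ hve, hv1⟩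

theorem Hyp.one_avoid {H : Finset (Finset V)} (h : Hyp H 1) (a b : V) :
    ∃ g ∈ H, a ∉ g ∧ b ∉ g := by
  obtain ⟨P, hP, -, hc, hav⟩ := h.avoid a b
  obtain ⟨g, hg⟩ := Finset.card_eq_one.1 hc
  have hgP : g ∈ P := by rw [hg]; simp
  exact ⟨g, hP hgP, (hav g hgP).1, (hav g hgP).2⟩

/-- **Erdős–Lovász.** A 2-resilient 3-graph with matching number one has at most ten edges. -/
theorem EL10 {H : Finset (Finset V)} (h : Hyp H 1) : H.card ≤ 10 := by
  rcases H.eq_empty_or_nonempty with hH | ⟨e, he⟩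
  · rw [hH]; simp
  obtain ⟨x, y, z, hxy, hxz, hyz, hxyz⟩ := Finset.card_eq_three.1 (h.three e he)
  have he1 : ({x, y, z} : Finset V) ∈ H := hxyz ▸ he
  have he2 : ({y, x, z} : Finset V) ∈ H := by rwa [Finset.insert_comm]
  have he3 : ({z, x, y} : Finset V) ∈ H := by
    have : ({z, x, y} : Finset V) = {x, y, z} := by
      ext v
      simp only [mem_insert, mem_singleton]
      tauto
    rwa [this]
  have c1 := claim h.three (fun f hf g hg => Hyp.one_inter h hf hg) (Hyp.one_avoid h)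
    hxy hxz hyz he1
  have c2 := claim h.three (fun f hf g hg => Hyp.one_inter h hf hg) (Hyp.one_avoid h)
    hxy.symm hyz hxz he2
  have c3 := claim h.three (fun f hf g hg => Hyp.one_inter h hf hg) (Hyp.one_avoid h)
    hxz.symm hyz.symm hxy he3
  have hsub : H ⊆ {e} ∪ ((H.filter (fun f => x ∈ f ∧ y ∉ f ∧ z ∉ f) ∪
      H.filter (fun f => x ∉ f ∧ y ∈ f ∧ z ∈ f)) ∪
      ((H.filter (fun f => y ∈ f ∧ x ∉ f ∧ z ∉ f) ∪
      H.filter (fun f => y ∉ f ∧ x ∈ f ∧ z ∈ f)) ∪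
      (H.filter (fun f => z ∈ f ∧ x ∉ f ∧ y ∉ f) ∪
      H.filter (fun f => z ∉ f ∧ x ∈ f ∧ y ∈ f)))) := by
    intro f hf
    simp only [mem_union, mem_filter, mem_singleton]
    obtain ⟨v, hv1, hv2⟩ := Hyp.one_inter h hf he1
    simp only [mem_insert, mem_singleton] at hv2
    by_cases h1 : x ∈ f <;> by_cases h2 : y ∈ f <;> by_cases h4 : z ∈ f
    · left
      rw [hxyz]
      exact eq3 (h.three f hf) h1 h2 h4 hxy hxz hyz
    · tauto
    · tauto
    · tauto
    · tauto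
    · tauto
    · tauto
    · exfalso
      rcases hv2 with rfl | rfl | rfl
      · exact h1 hv1
      · exact h2 hv1
      · exact h4 hv1
  have h5 := card_le_card hsub
  have u1 := card_union_le ({e} : Finset (Finset V)) ((H.filter (fun f => x ∈ f ∧ y ∉ f ∧ z ∉ f) ∪
      H.filter (fun f => x ∉ f ∧ y ∈ f ∧ z ∈ f)) ∪
      ((H.filter (fun f => y ∈ f ∧ x ∉ f ∧ z ∉ f) ∪
      H.filter (fun f => y ∉ f ∧ x ∈ f ∧ z ∈ f)) ∪
      (H.filter (fun f => z ∈ f ∧ x ∉ f ∧ y ∉ f) ∪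
      H.filter (fun f => z ∉ f ∧ x ∈ f ∧ y ∈ f))))
  have u2 := card_union_le (H.filter (fun f => x ∈ f ∧ y ∉ f ∧ z ∉ f) ∪
      H.filter (fun f => x ∉ f ∧ y ∈ f ∧ z ∈ f))
      ((H.filter (fun f => y ∈ f ∧ x ∉ f ∧ z ∉ f) ∪
      H.filter (fun f => y ∉ f ∧ x ∈ f ∧ z ∈ f)) ∪
      (H.filter (fun f => z ∈ f ∧ x ∉ f ∧ y ∉ f) ∪
      H.filter (fun f => z ∉ f ∧ x ∈ f ∧ y ∈ f)))
  have u3 := card_union_le (H.filter (fun f => y ∈ f ∧ x ∉ f ∧ z ∉ f) ∪
      H.filter (fun f => y ∉ f ∧ x ∈ f ∧ z ∈ f))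
      (H.filter (fun f => z ∈ f ∧ x ∉ f ∧ y ∉ f) ∪
      H.filter (fun f => z ∉ f ∧ x ∈ f ∧ y ∈ f))
  have u4 := card_union_le (H.filter (fun f => x ∈ f ∧ y ∉ f ∧ z ∉ f))
      (H.filter (fun f => x ∉ f ∧ y ∈ f ∧ z ∈ f))
  have u5 := card_union_le (H.filter (fun f => y ∈ f ∧ x ∉ f ∧ z ∉ f))
      (H.filter (fun f => y ∉ f ∧ x ∈ f ∧ z ∈ f))
  have u6 := card_union_le (H.filter (fun f => z ∈ f ∧ x ∉ f ∧ y ∉ f))
      (H.filter (fun f => z ∉ f ∧ x ∈ f ∧ y ∈ f))
  have u7 : ({e} : Finset (Finset V)).card = 1 := card_singleton e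
  omega

end Res41
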