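import Pool.Agent.Helper9.Res.PM
import Pool.Agent.Helper65.Res.LA2
import Pool.Agent.Helper65.Res.Frame

/-!
# Route A, `j ≤ 1`: pairs of blocks without a label cell, and with two disjoint label cells

* `mis18`: `|mis F {e, f}|` as the sum of the eighteen missing indicators.
* `lam_eq`: `lam` of a pair in terms of labels and missing `x`, `y` cells.
* `free_pair`: no label cell in `e × f` and a non-empty `N'_x(p)` or `N'_y(p)`, `p ∈ e`: at least
  six losses.
* `two_disjoint`: two disjoint label cells with one common label everywhere.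
-/

namespace Helper41.Res

open Finset Res12 RouteA Helper1.Res Helper54.Res Helper70.Res Helper9.Res

set_option linter.unusedSectionVars false

variable {V : Type} [Fintype V] [DecidableEq V]
variable {F P : Finset (Finset V)} {s j : ℕ} {x y : V}

theorem ms_rot (p q r : V) : ms F p q r = ms F q r p := by
  unfold ms
  rw [Helper9.Res.rot]

theorem ms_23 (p q r : V) : ms F p q r = ms F p r q := by
  unfold ms
  rw [Helper9.Res.swap23]

/-- exchange of the first two columns -/
theorem pm_c12 {e f : Finset V} {u v t a b c : V} (p : Pm P e f u v t a b c) :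
    Pm P e f u v t b a c :=
  ⟨p.he, p.hf, p.hef, p.hu, p.hv, p.ht, p.hb, p.ha, p.hc, p.huv, p.hut, p.hvt, p.hab.symm,
    p.hbc, p.hac⟩

section
variable (h : SetUp F s j P x y)
include h

theorem card_m2_four {e f : Finset V} {u v t a b c : V} (p : Pm P e f u v t a b c) :
    (m2 F e f u a).card = ms F u a v + ms F u a t + ms F u a b + ms F u a c := by
  have e1 := block_eq h p.he p.hu p.hv p.ht p.huv p.hut p.hvt
  have e2 := block_eq h p.hf p.ha p.hb p.hc p.hab p.hac p.hbc
  have hM := toMM h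
  have nef : ∀ {i k : V}, i ∈ e → k ∈ f → i ≠ k := fun hi hj => hM.neq p.he p.hf p.hef hi hj
  have hset : (e ∪ f) \ {u, a} = {v, t, b, c} := by
    rw [← e1, ← e2]
    ext z
    simp only [mem_sdiff, mem_union, mem_insert, mem_singleton]
    constructor
    · rintro ⟨(h1 | h1 | h1) | (h1 | h1 | h1), h2⟩ <;> tauto
    · have h1 := p.huv
      have h2 := p.hut
      have h3 := p.hab
      have h4 := p.hac
      have h5 := nef p.hu p.hb
      have h6 := nef p.hu p.hc
      have h7 := nef p.hv p.ha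
      have h8 := nef p.ht p.ha
      rintro (rfl | rfl | rfl | rfl)
      · exact ⟨by tauto, by rintro (h9 | h9); exact h1 h9.symm; exact h7 h9⟩
      · exact ⟨by tauto, by rintro (h9 | h9); exact h2 h9.symm; exact h8 h9⟩
      · exact ⟨by tauto, by rintro (h9 | h9); exact h5 h9.symm; exact h3 h9.symm⟩
      · exact ⟨by tauto, by rintro (h9 | h9); exact h6 h9.symm; exact h4 h9.symm⟩
  unfold m2
  rw [hset, card_filter]
  have g1 := p.hvt
  have g2 := nef p.hv p.hb
  have g3 := nef p.hv p.hc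
  have g4 := nef p.ht p.hb
  have g5 := nef p.ht p.hc
  have g6 := p.hbc
  rw [sum_insert (by simp [g1, g2, g3]), sum_insert (by simp [g4, g5]), sum_insert (by simp [g6]),
    sum_singleton]
  have k : ∀ z : V, (if ({u, a, z} : Finset V) ∉ F then 1 else 0) = ms F u a z := by
    intro z
    unfold ms
    split_ifs <;> rfl
  rw [k, k, k, k]
  ring

/-- **the eighteen inner triples** -/
theorem mis18 {e f : Finset V} {u v t a b c : V} (p : Pm P e f u v t a b c) :
    (mis F {e, f}).card =
      (ms F u a b + ms F u a c + ms F u b c) + (ms F v a b + ms F v a c + ms F v b c) +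
      (ms F t a b + ms F t a c + ms F t b c) + (ms F a u v + ms F a u t + ms F a v t) +
      (ms F b u v + ms F b u t + ms F b v t) + (ms F c u v + ms F c u t + ms F c v t) := by
  have h2 := SetUp.sum_m2 h p.he p.hf p.hef
  rw [sum_nine (fun q r => (m2 F e f q r).card) p h.threeP] at h2
  have p1 := card_m2_four h p
  have p2 := card_m2_four h (pm_c12 p)
  have p3 := card_m2_four h (pm_c12 p.cols)
  have q1 := card_m2_four h (pm_c12 p.swap)
  have q2 := card_m2_four h p.swap
  have q3 := card_m2_four h (pm_c12 (pm_c12 p.swap).cols)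
  have r1 := card_m2_four h (pm_c12 p.rot.rot)
  have r2 := card_m2_four h (pm_c12 (p.rot.rot.cols))
  have r3 := card_m2_four h p.rot.rot
  rw [ms_comm u a v, ms_comm u a t] at p1
  rw [ms_comm u b v, ms_comm u b t, ms_23 u b a] at p2
  rw [ms_comm u c v, ms_comm u c t, ms_23 u c a, ms_23 u c b] at p3
  rw [ms_comm v a u, ms_23 a v u, ms_comm v a t] at q1
  rw [ms_comm v b u, ms_23 b v u, ms_comm v b t, ms_23 v b a] at q2
  rw [ms_comm v c u, ms_23 c v u, ms_comm v c t, ms_23 v c a, ms_23 v c b] at q3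
  rw [ms_comm t a u, ms_23 a t u, ms_comm t a v, ms_23 a t v] at r1
  rw [ms_comm t b u, ms_23 b t u, ms_comm t b v, ms_23 b t v, ms_23 t b a] at r2
  rw [ms_comm t c u, ms_23 c t u, ms_comm t c v, ms_23 c t v, ms_23 t c a, ms_23 t c b] at r3
  rw [p1, p2, p3, q1, q2, q3, r1, r2, r3] at h2
  omega

/-- `lam` in terms of labels and missing cells -/
theorem lam_eq (a b : V) :
    lam F P a b = ((lb F P x y a b).card : ℤ) - ms F a b x - ms F a b y := by
  have h1 := h.dW_eq a b
  have h2 : (N F a b ∩ {x, y}).card + (ms F a b x + ms F a b y) = 2 := by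
    have h3 : (N F a b ∩ {x, y}).card = (({x, y} : Finset V).filter (fun z => z ∈ N F a b)).card := by
      congr 1
      ext z
      simp only [mem_inter, mem_filter]
      tauto
    rw [h3, card_filter, sum_pair h.ne]
    unfold ms
    simp only [mem_N]
    split_ifs <;> rfl
  unfold lam
  omega

/-- the conflict of an edge `{z, u, w}` (`z`, `w` outside) with a triple and a cell -/
theorem confl {e f : Finset V} {u v t a b c : V} (p : Pm P e f u v t a b c) {z z' w : V}
    (hz : z ∉ VS P) (hz' : z' ∉ VS P) (hw : w ∉ VS P) (hzz : z ≠ z') (hwz' : w ≠ z')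
    (hzw : ({z, u, w} : Finset V) ∈ F) : 1 ≤ ms F v a b + ms F t c z' := by
  by_contra hcon
  push Not at hcon
  have k1 : ms F v a b = 0 := by omega
  have k2 : ms F t c z' = 0 := by omega
  have hM := toMM h
  have nef : ∀ {i k : V}, i ∈ e → k ∈ f → i ≠ k := fun hi hj => hM.neq p.he p.hf p.hef hi hj
  refine two_blocks hM p.he p.hf hzw (mem_of_ms k1) (mem_of_ms k2)
    (disj3 ⟨(out_ne p.he p.hv hz).symm, (out_ne p.hf p.ha hz).symm, (out_ne p.hf p.hb hz).symm,
      p.huv, nef p.hu p.ha, nef p.hu p.hb, (out_ne p.he p.hv hw).symm, (out_ne p.hf p.ha hw).symm,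
      (out_ne p.hf p.hb hw).symm⟩)
    (disj3 ⟨(out_ne p.he p.ht hz).symm, (out_ne p.hf p.hc hz).symm, hzz,
      p.hut, nef p.hu p.hc, out_ne p.he p.hu hz', (out_ne p.he p.ht hw).symm,
      (out_ne p.hf p.hc hw).symm, hwz'⟩)
    (disj3 ⟨p.hvt, nef p.hv p.hc, out_ne p.he p.hv hz', (nef p.ht p.ha).symm, p.hac,
      out_ne p.hf p.ha hz', (nef p.ht p.hb).symm, p.hbc, out_ne p.hf p.hb hz'⟩) ?_ ?_ ?_
  · intro q hq
    simp only [mem_insert, mem_singleton] at hq
    rcases hq with rfl | rfl | rfl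
    · exact Or.inr (Or.inr hz)
    · exact Or.inl p.hu
    · exact Or.inr (Or.inr hw)
  · intro q hq
    simp only [mem_insert, mem_singleton] at hq
    rcases hq with rfl | rfl | rfl
    · exact Or.inl p.hv
    · exact Or.inr (Or.inl p.ha)
    · exact Or.inr (Or.inl p.hb)
  · intro q hq
    simp only [mem_insert, mem_singleton] at hq
    rcases hq with rfl | rfl | rfl
    · exact Or.inl p.ht
    · exact Or.inr (Or.inl p.hc)
    · exact Or.inr (Or.inr hz')

/-- the six conflicts of a non-empty `N'_z(u)` -/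
theorem six {e f : Finset V} {u v t a b c : V} (p : Pm P e f u v t a b c) {z z' w : V}
    (hz : z ∉ VS P) (hz' : z' ∉ VS P) (hw : w ∉ VS P) (hzz : z ≠ z') (hwz' : w ≠ z')
    (hzw : ({z, u, w} : Finset V) ∈ F) :
    6 ≤ (mis F {e, f}).card + (ms F v a z' + ms F v b z' + ms F v c z') +
      (ms F t a z' + ms F t b z' + ms F t c z') := by
  have h18 := mis18 h p
  have k1 := confl h p hz hz' hw hzz hwz' hzw
  have k2 := confl h p.cols hz hz' hw hzz hwz' hzw
  have k3 := confl h (pm_c12 p).cols hz hz' hw hzz hwz' hzw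
  have k4 := confl h p.swap23.cols hz hz' hw hzz hwz' hzw
  have k5 := confl h p.swap23 hz hz' hw hzz hwz' hzw
  have k6 := confl h (pm_c12 p.swap23).cols hz hz' hw hzz hwz' hzw
  rw [ms_23 t c b] at k6
  omega

omit h in
theorem sum9_le {e f : Finset V} {u v t a b c : V} (h3 : ∀ g ∈ P, g.card = 3)
    (p : Pm P e f u v t a b c) (X : V → V → ℤ) {A B : ℤ} (hA : ∀ q ∈ e, ∀ r ∈ f, X q r ≤ 0)
    (h2 : X v a + X v b + X v c + (X t a + X t b + X t c) ≤ B) (hAB : B ≤ A) :
    ∑ q ∈ e, ∑ r ∈ f, X q r ≤ A := by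
  rw [sum_nine X p h3]
  have k1 := hA u p.hu a p.ha
  have k2 := hA u p.hu b p.hb
  have k3 := hA u p.hu c p.hc
  omega

/-- **free_pair**: no label cell in `e × f` and a non-empty `N'_x(u)` or `N'_y(u)`, `u ∈ e` -/
theorem free_pair {e f : Finset V} (he : e ∈ P) (hf : f ∈ P) (hef : e ≠ f)
    (hfree : ∀ q ∈ e, ∀ r ∈ f, lb F P x y q r = ∅) {u : V} (hu : u ∈ e)
    (hN : (lb F P x y x u).Nonempty ∨ (lb F P x y y u).Nonempty) :
    3 * ∑ q ∈ e, ∑ r ∈ f, lam F P q r - 3 * ((mis F {e, f}).card : ℤ) ≤ -18 := by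
  obtain ⟨v, t, he3, huv, hut, hvt, -⟩ := block_at h he hu
  obtain ⟨a, b, c, ha, hb, hc, hab, hac, hbc, -⟩ := exists_three (h.threeP f hf)
  have p : Pm P e f u v t a b c := ⟨he, hf, hef, hu, by rw [he3]; simp, by rw [he3]; simp, ha, hb,
    hc, huv, hut, hvt, hab, hac, hbc⟩
  have hl : ∀ q ∈ e, ∀ r ∈ f, lam F P q r = - (ms F q r x : ℤ) - ms F q r y := by
    intro q hq r hr
    rw [lam_eq h, hfree q hq r hr]
    simp
  have key : ∀ z z' : V, (z = x ∧ z' = y) ∨ (z = y ∧ z' = x) → (lb F P x y z u).Nonempty →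
      3 * ∑ q ∈ e, ∑ r ∈ f, lam F P q r - 3 * ((mis F {e, f}).card : ℤ) ≤ -18 := by
    intro z z' hzz hn
    obtain ⟨w, hw⟩ := hn
    obtain ⟨w1, w2, w3, w4⟩ := mem_lb.1 hw
    have hz : z ∉ VS P := by
      rcases hzz with ⟨rfl, rfl⟩ | ⟨rfl, rfl⟩
      · exact h.avx
      · exact h.avy
    have hz' : z' ∉ VS P := by
      rcases hzz with ⟨rfl, rfl⟩ | ⟨rfl, rfl⟩
      · exact h.avy
      · exact h.avx
    have hne : z ≠ z' := by
      rcases hzz with ⟨rfl, rfl⟩ | ⟨rfl, rfl⟩
      · exact h.ne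
      · exact h.ne.symm
    have hwz' : w ≠ z' := by
      rcases hzz with ⟨rfl, rfl⟩ | ⟨rfl, rfl⟩
      · exact w4
      · exact w3
    have h6 := six h p hz hz' w2 hne hwz' w1
    have hX : ∀ q ∈ e, ∀ r ∈ f, lam F P q r ≤ - (ms F q r z' : ℤ) := by
      intro q hq r hr
      rw [hl q hq r hr]
      rcases hzz with ⟨rfl, rfl⟩ | ⟨rfl, rfl⟩
      · omega
      · omega
    have h0 : ∀ q ∈ e, ∀ r ∈ f, lam F P q r ≤ 0 := by
      intro q hq r hr
      have := hX q hq r hr
      omega
    have x1 := hX v p.hv a p.ha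
    have x2 := hX v p.hv b p.hb
    have x3 := hX v p.hv c p.hc
    have x4 := hX t p.ht a p.ha
    have x5 := hX t p.ht b p.hb
    have x6 := hX t p.ht c p.hc
    have := sum9_le h.threeP p (fun q r => lam F P q r) (A := ((mis F {e, f}).card : ℤ) - 6)
      (B := ((mis F {e, f}).card : ℤ) - 6) h0 (by omega) le_rfl
    omega
  rcases hN with hN | hN
  · exact key x y (Or.inl ⟨rfl, rfl⟩) hN
  · exact key y x (Or.inr ⟨rfl, rfl⟩) hN

/-- no label cell in `e × f` -/
theorem free_nonpos {e f : Finset V}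
    (hfree : ∀ q ∈ e, ∀ r ∈ f, lb F P x y q r = ∅) :
    ∑ q ∈ e, ∑ r ∈ f, lam F P q r ≤ 0 := by
  refine sum_nonpos fun q hq => sum_nonpos fun r hr => ?_
  rw [lam_eq h, hfree q hq r hr, card_empty]
  omega

/-- the four inner kills of a label `u a` -/
theorem four_kills {e f : Finset V} {u v t a b c : V} (p : Pm P e f u v t a b c)
    (hl : (lb F P x y u a).Nonempty) :
    1 ≤ ms F b v t + ep F x y c ∧ 1 ≤ ms F c v t + ep F x y b ∧
      1 ≤ ms F v b c + ep F x y t ∧ 1 ≤ ms F t b c + ep F x y v := by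
  have hM := toMM h
  have e1 := block_eq h p.he p.hu p.hv p.ht p.huv p.hut p.hvt
  have e2 := block_eq h p.hf p.ha p.hb p.hc p.hab p.hac p.hbc
  have e3 := block_eq h p.he p.hu p.ht p.hv p.hut p.huv p.hvt.symm
  have e4 := block_eq h p.hf p.ha p.hc p.hb p.hac p.hab p.hbc.symm
  obtain ⟨w, hw⟩ := hl
  obtain ⟨w1, w2, w3, w4⟩ := mem_lb.1 hw
  have w5 : ({a, u, w} : Finset V) ∈ F := by rw [triple_comm12]; exact w1
  have gen : ∀ {e' f' : Finset V} {u' v' t' a' b' c' : V}, Pm P e' f' u' v' t' a' b' c' →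
      ({u', a', w} : Finset V) ∈ F → 1 ≤ ms F b' v' t' + ep F x y c' := by
    intro e' f' u' v' t' a' b' c' p' hw'
    by_contra hcon
    push Not at hcon
    have k1 : ms F b' v' t' = 0 := by omega
    have k2 : ep F x y c' = 0 := by omega
    have g1 := block_eq h p'.he p'.hu p'.hv p'.ht p'.huv p'.hut p'.hvt
    have g2 := block_eq h p'.hf p'.ha p'.hb p'.hc p'.hab p'.hac p'.hbc
    have := label_inner hM h.avx h.avy (u := u') (v := v') (t := t') (a := a') (b := b') (c := c')
      (by rw [g1]; exact p'.he) (by rw [g2]; exact p'.hf) (by rw [g1, g2]; exact p'.hef)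
      w2 w3 w4 hw' (by
        have := mem_of_ms k1
        rwa [Helper9.Res.rot] at this)
    unfold ep at k2
    rw [if_neg this] at k2
    omega
  refine ⟨gen p w1, ?_, ?_, ?_⟩
  · exact gen p.cols w1
  · have := gen p.tr w5
    exact this
  · exact gen p.tr.cols w5

/-- two disjoint label cells kill eight inner triples, up to points outside `E` -/
theorem eight {e f : Finset V} {u v t a b c : V} (p : Pm P e f u v t a b c)
    (h1 : (lb F P x y u a).Nonempty) (h2 : (lb F P x y v b).Nonempty) :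
    8 ≤ (mis F {e, f}).card + 2 * (ty F x y e + ty F x y f) := by
  obtain ⟨a1, a2, a3, a4⟩ := four_kills h p h1
  obtain ⟨b1, b2, b3, b4⟩ := four_kills h p.swap h2
  have h18 := mis18 h p
  have e1 := block_eq h p.he p.hu p.hv p.ht p.huv p.hut p.hvt
  have e2 := block_eq h p.hf p.ha p.hb p.hc p.hab p.hac p.hbc
  have t1 : ty F x y e = ep F x y u + ep F x y v + ep F x y t := by
    rw [ty_eq, ← e1, sum3 p.huv p.hut p.hvt]
  have t2 : ty F x y f = ep F x y a + ep F x y b + ep F x y c := by
    rw [ty_eq, ← e2, sum3 p.hab p.hac p.hbc]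
  omega

/-- **two_disjoint**: all labels in one point `w`: the sum over the nine cells is at most `0` -/
theorem two_disjoint {e f : Finset V} (he : e ∈ P) (hf : f ∈ P) (hef : e ≠ f) {w : V}
    (hw : ∀ q ∈ e, ∀ r ∈ f, lb F P x y q r ⊆ {w}) :
    ∑ q ∈ e, ∑ r ∈ f, lam F P q r ≤ 0 := by
  have h3 := sum_cells_le (fun q r => lam F P q r) 0 h.threeP he hf hef (by
    intro u v t a b c p
    have hle : ∀ q ∈ e, ∀ r ∈ f, (N F q r \ VS P).card ≤ 3 := by
      intro q hq r hr
      have k1 := h.dW_eq q r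
      have k2 := card_le_card (hw q hq r hr)
      have k3 : (N F q r ∩ {x, y}).card ≤ 2 :=
        (card_le_card inter_subset_right).trans card_le_two
      rw [card_singleton] at k2
      unfold RouteA.dW at k1
      omega
    have n1 := hle u p.hu a p.ha
    have n2 := hle v p.hv b p.hb
    have n3 := hle t p.ht c p.hc
    obtain ⟨k1, k2⟩ := norep_sum (norep h p)
    unfold lam RouteA.dW
    have fe : ∀ n : ℕ, n ≤ 3 → fv n = fi n := by
      intro n hn
      unfold fv fi
      split_ifs with h5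
      · have : n = 3 := by omega
        subst this
        norm_num
      · rfl
    rw [fe _ n1, fe _ n2, fe _ n3] at k1
    linarith)
  simpa using h3

end

end Helper41.Res
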