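import Pool.Agent.Helper41.Res.B36b
import Pool.Agent.Helper65.Res.Loc

/-!
# Project RES (MP_d365ae_co): the local-global lemma without hypotheses
-/

namespace Res41

open Finset Res12

set_option linter.unusedSectionVars false

variable {V : Type} [Fintype V] [DecidableEq V]

theorem EL : ∀ H : Finset (Finset V), Hyp H 1 → H.card ≤ 10 := fun _ h => EL10 h

theorem B36 : ∀ H : Finset (Finset V), Hyp H 2 → ∀ e ∈ H, ∀ f ∈ H, Disjoint e f →
    Hyp (av H f) 1 → Hyp (av H e) 1 →
    (H.filter (fun g => ¬ Disjoint g e ∧ ¬ Disjoint g f)).card ≤ 36 :=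
  fun _ h _ he _ hf hd h1 h2 => b36 h he hf hd h1 h2

/-- The counting theorem: if the local pieces of the matching `N` are 2-resilient, then
`|F| ≤ C(3|N|+2,3)`. -/
theorem loc_count' {F N : Finset (Finset V)} (h3 : ∀ e ∈ F, e.card = 3) (hN : N ⊆ F)
    (hm : IsMatching N)
    (hloc : ∀ S ⊆ N, S.card ≤ 2 → Hyp (av F (VS (N \ S))) S.card) :
    F.card ≤ (3 * N.card + 2).choose 3 :=
  loc_count EL B36 h3 hN hm hloc

theorem local_global' {F : Finset (Finset V)} {s D : ℕ} (h3 : ∀ e ∈ F, e.card = 3)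
    (hD : ∀ T : Finset V, 3 * s ≤ D + T.card + 3 * nu (av F T))
    {P : Finset V} {N : Finset (Finset V)} (hN : N ⊆ av F P) (hm : IsMatching N)
    (hc : D + P.card + 3 * N.card ≤ 3 * s)
    (hblock : ∀ S ⊆ N, S.card ≤ 2 → nu (av (av F P) (VS (N \ S))) ≤ S.card) :
    (av F P).card ≤ (3 * N.card + 2).choose 3 :=
  local_global EL B36 h3 hD hN hm hc hblock

theorem card_av_opt' {F : Finset (Finset V)} {s D : ℕ} (h3 : ∀ e ∈ F, e.card = 3)
    (hD : ∀ T : Finset V, 3 * s ≤ D + T.card + 3 * nu (av F T)) {T : Finset V}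
    (hT : D + T.card + 3 * nu (av F T) ≤ 3 * s) :
    (av F T).card ≤ (3 * nu (av F T) + 2).choose 3 :=
  card_av_opt EL B36 h3 hD hT

/-- The case `D = 0`: no set of vertices lowers the matching number by more than a third of its
size (in particular the vertex cover number is `3 s`). -/
theorem card_of_zero' {F : Finset (Finset V)} {s : ℕ} (h : Hyp F s)
    (hD : ∀ T : Finset V, 3 * s ≤ T.card + 3 * nu (av F T)) :
    F.card ≤ (3 * s + 2).choose 3 :=
  card_of_zero EL B36 h hD

end Res41
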